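import Pool.Agent.TH674.JK.Main

/-!
# Finite-index subgroups that are congruence subgroups on a Johnson kernel (MP_59b15d_al)

Let `P` be a finitely generated group (for the problem: the fundamental group of a closed surface),
`K` a normal subgroup of finite index, and `γ_0(K) = K`, `γ_1(K) = [K, K]`, ... the lower
central series of `K` (`K = P` gives the usual Johnson filtration). Let `H ≤ G` be groups of
automorphisms of `P`.

Suppose that `H` contains all elements of `G` which act trivially on `P / C` and on `P / γ_c(K)`,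
for some characteristic subgroup `C` of finite index and some `c`.

(1) If `a ^ e ∈ H` for all `a ∈ G` and some fixed `e ≥ 1` (for instance `H` of finite index in `G`),
then `H` contains all elements of `G` which act trivially on `P / C'` and on `P / [K, K]`, for some
characteristic subgroup `C'` of finite index.

(2) If `K` is characteristic, if `H` has finite index in `G` and contains the inner automorphisms, and
if the image of `G` in `Aut (P / [K, K])` has the congruence subgroup property, then `H` contains all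
elements of `G` which
act on `P / C'` as an inner automorphism, for some characteristic subgroup `C'` of finite index.
-/

set_option autoImplicit false

namespace Pool.Agent.Results.MP_59b15d_al.JohnsonKernelTraces

open Pool.Agent.TH674.JK

theorem result (P : Type) [Group P] [Group.FG P]
    (K : Subgroup P) (hK : K.Normal) (hKf : K.FiniteIndex)
    (G H : Subgroup (MulAut P)) (hHG : H ≤ G) (c : ℕ)
    (hc : ∃ C : Subgroup P, C.Characteristic ∧ C.FiniteIndex ∧ ∀ φ ∈ G,
      (∀ x, φ x * x⁻¹ ∈ C) → (∀ x, φ x * x⁻¹ ∈ K.lowerCentralSeries c) → φ ∈ H) :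
    ((∃ e : ℕ, 0 < e ∧ ∀ a ∈ G, a ^ e ∈ H) →
      ∃ C : Subgroup P, C.Characteristic ∧ C.FiniteIndex ∧ ∀ φ ∈ G,
        (∀ x, φ x * x⁻¹ ∈ C) → (∀ x, φ x * x⁻¹ ∈ ⁅K, K⁆) → φ ∈ H) ∧
    (K.Characteristic → H.relIndex G ≠ 0 → (∀ x : P, MulAut.conj x ∈ H) →
      (∀ W : Subgroup (MulAut P), W.relIndex G ≠ 0 →
        (∀ φ : MulAut P, (∀ x, φ x * x⁻¹ ∈ ⁅K, K⁆) → φ ∈ W) →
        ∃ C : Subgroup P, C.Characteristic ∧ C.FiniteIndex ∧ ∀ φ ∈ G,
          (∀ x, φ x * x⁻¹ ∈ C) → φ ∈ W) →
      ∃ C : Subgroup P, C.Characteristic ∧ C.FiniteIndex ∧ ∀ φ ∈ G,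
        (∃ h : P, ∀ x, φ x * (h * x * h⁻¹)⁻¹ ∈ C) → φ ∈ H) := by
  refine ⟨fun ⟨e, he, hGH⟩ => ?_, fun hKc hfin hI hW => ?_⟩
  · exact down2 K hK hKf G H e he hGH c hc
  · obtain ⟨e, he, hGH⟩ := exp_of_relIndex G H hfin
    have h1 : PK K G H 1 := down2 K hK hKf G H e he hGH c hc
    have h0 : PC G H 0 := top2 K hKc G H hHG hfin h1 (fun W hW1 hW2 => hW W hW1 fun φ hφ => hW2 hφ)
    obtain ⟨C, hC1, hC2, hC3⟩ := outer G H hHG hI 0 (Nat.zero_le 1) h0
    exact ⟨C, hC1, hC2, fun φ hφ hh => hC3 φ hφ hh (fun x => Subgroup.mem_top _)⟩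

end Pool.Agent.Results.MP_59b15d_al.JohnsonKernelTraces
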