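import Pool.Agent.TH933.SPC.Main

/-!
# MP_59b15d_al: the congruence subgroup problem for mapping class groups and the Johnson filtration

Let `G` be the fundamental group of the closed orientable surface of genus `g ≥ 3`, so that
`Out G` is the extended mapping class group. For a characteristic subgroup `K` of `G` let `Γ(K)` be
the group of the automorphisms of `G` which act trivially on `G / K`; for `K = γ_{c+1}(G)` (the lower
central series) this is the `c`-th Johnson kernel (of the mapping class group with a marked point),
for `c = 1` the Torelli group.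

A subgroup `H` of finite index in `Aut G` which contains `Γ(K₀) ∩ Γ(γ_{c+1}(G))` for some `c` and
some characteristic subgroup `K₀` of finite index contains `Γ(K)` for a characteristic subgroup `K`
of finite index; and if `H` contains the inner automorphisms, then it contains all the automorphisms
which are inner modulo `K`. So a finite-index subgroup of the mapping class group is a congruence
subgroup as soon as its trace on some term of the Johnson filtration is a congruence subgroup there.

The proof. Step by step down the Johnson filtration: the Johnson homomorphisms have values in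
finitely generated abelian groups, and `G / γ_{c+1}(G)` is residually finite. The last step, from the
Torelli group to the mapping class group, uses the congruence subgroup property of `Sp_{2g}(ℤ)`,
which is deduced from that of `SL_g(ℤ)`, and Dehn twists.
-/

set_option autoImplicit false

namespace Pool.Agent.Results.MP_59b15d_al.JohnsonTraces

/-- The fundamental group of the closed orientable surface of genus `g`: generators `a_i`, `b_i`
(`Sum.inl i`, `Sum.inr i`), relator the product of the commutators `a_i b_i a_i⁻¹ b_i⁻¹`. -/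
abbrev SurfaceGroup (g : ℕ) : Type :=
  PresentedGroup
    ({(List.ofFn (fun i : Fin g =>
        FreeGroup.of (Sum.inl i : Fin g ⊕ Fin g) *
        FreeGroup.of (Sum.inr i : Fin g ⊕ Fin g) *
        (FreeGroup.of (Sum.inl i : Fin g ⊕ Fin g))⁻¹ *
        (FreeGroup.of (Sum.inr i : Fin g ⊕ Fin g))⁻¹)).prod} :
      Set (FreeGroup (Fin g ⊕ Fin g)))

/-- `Γ(K)`: the group of all automorphisms `ψ` of `G` with `ψ(x) x⁻¹ ∈ K` for all `x`. -/
def Gam {G : Type} [Group G] (K : Subgroup G) : Subgroup (MulAut G) where
  carrier := {ψ | ∀ x : G, ψ x * x⁻¹ ∈ K}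
  one_mem' := (Pool.Agent.TH933.JT.TT K).one_mem
  mul_mem' := (Pool.Agent.TH933.JT.TT K).mul_mem
  inv_mem' := (Pool.Agent.TH933.JT.TT K).inv_mem

open Pool.Agent.TH933.SPC in
theorem result (g : ℕ) (hg : 3 ≤ g) (H : Subgroup (MulAut (SurfaceGroup g))) (hH : H.FiniteIndex)
    (c : ℕ) (K₀ : Subgroup (SurfaceGroup g)) (hK₀ : K₀.Characteristic) (hK₀' : K₀.FiniteIndex)
    (h : Gam K₀ ⊓ Gam ((⊤ : Subgroup (SurfaceGroup g)).lowerCentralSeries c) ≤ H) :
    ∃ K : Subgroup (SurfaceGroup g), K.Characteristic ∧ K.FiniteIndex ∧ Gam K ≤ H ∧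
      ((∀ x : SurfaceGroup g, MulAut.conj x ∈ H) → ∀ ψ : MulAut (SurfaceGroup g),
        (∃ y : SurfaceGroup g, ∀ x : SurfaceGroup g, ψ x * (y * x * y⁻¹)⁻¹ ∈ K) → ψ ∈ H) := by
  obtain ⟨K, hK1, hK2, hK3⟩ := mcg hg H hH c ⟨K₀, hK₀, hK₀', fun ψ ha hb => h ⟨ha, hb⟩⟩
  refine ⟨K, hK1, hK2, fun ψ hψ => hK3 ψ hψ, fun hi ψ hψ => ?_⟩
  exact Fin.outer H K ⊤ hK1 inferInstance le_top (fun φ hφ _ => hK3 φ hφ) hi ψ hψ
    (fun x => Subgroup.mem_top _)

end Pool.Agent.Results.MP_59b15d_al.JohnsonTraces
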